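import Pool.Agent.EX.Final
import Pool.Agent.EX.CS2

/-! MP_68260e: exceptional times for critical percolation on the triangular lattice under
nearest-neighbour exclusion. -/

open MeasureTheory

namespace Pool.Agent.Results.MP_68260e_pr.ExceptionalTimes

/-- Independent fair bits `ξ` on the sites and independent rate-one Poisson clocks on the edges
of the triangular lattice exist, and for every realisation of them: almost surely the
nearest-neighbour exclusion process started from `ξ` exists, is unique, and has an exceptional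
time (a time with an infinite black cluster). -/
theorem result :
    (∃ (Ω : Type) (_ : MeasurableSpace Ω) (P : Measure Ω) (_ : IsProbabilityMeasure P)
      (ξ : TriX.V → Ω → Bool) (ring : TriX.Edge → Ω → Set ℝ), TriX.IsClockSystem P ξ ring) ∧
    ∀ (Ω : Type) [MeasurableSpace Ω] (P : Measure Ω) [IsProbabilityMeasure P]
      (ξ : TriX.V → Ω → Bool) (ring : TriX.Edge → Ω → Set ℝ),
      TriX.IsClockSystem P ξ ring →
      ∀ᵐ ω ∂P,
        (∃ η : ℝ → TriX.V → Bool,
          TriX.IsExclusion (fun e => ring e ω) η ∧ ∀ v, η 0 v = ξ v ω) ∧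
        (∀ η η' : ℝ → TriX.V → Bool, TriX.IsExclusion (fun e => ring e ω) η →
          TriX.IsExclusion (fun e => ring e ω) η' → (∀ v, η 0 v = ξ v ω) →
          (∀ v, η' 0 v = ξ v ω) → ∀ t : ℝ, 0 ≤ t → η t = η' t) ∧
        ∀ η : ℝ → TriX.V → Bool, TriX.IsExclusion (fun e => ring e ω) η →
          (∀ v, η 0 v = ξ v ω) →
          ∃ t : ℝ, 0 ≤ t ∧ TriX.HasInfCluster {v | η t v = true} :=
  ⟨TriX.clock, fun Ω _ P _ ξ ring h => TriX.f_mainU Ω P ξ ring h⟩

end Pool.Agent.Results.MP_68260e_pr.ExceptionalTimes
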